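import Pool.Agent.H62.ONE1.Mod
import Pool.Agent.H91.ONE.Fre
import Pool.Agent.H91.FR.AllG
import Pool.Agent.H72.OWN.Rxe

/-!
# The class of one index

`cls_ex`: a closed label of a coordinate over three coordinates is fixed for each family, in a
subclass; in this subclass the thresholds of the modified velocity exist, the record of the ball
does not see its own velocity at almost every point, and the first digits of the velocities are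
free.
-/

set_option autoImplicit false

namespace Pool.ONE28

open Finset Real MeasureTheory
open Pool.Agent.H49.Ent Pool.Agent.H32.Dense Pool.STK Pool.KA Pool.KSAT Pool.K2S Pool.PB Pool.GEN
open Pool.S6C Pool.LA91 Pool.RCD Pool.OWN72 Pool.MM97 Pool.ONE72
open Pool.PRC54 (IprI)

variable {m : ℕ}

/-- **The class of one index.** -/
theorem cls_ex {S : PCl m} (hS : S.Ne)
    (hpos : ∀ (τ : ℝ) (J : ℕ) (F : Fam m J) (A : F.Ω → Prop), S.St τ J F A → 0 < Pe F.p A)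
    {M : ℝ} (hcnt : Bas S (fun J F A => (cnt F.p (ptr F J) A : ℝ) ≤ Real.exp (M * J)))
    {C₀ : ℝ} (htm : TmC S C₀) {y u v t : Fin m} (hact : Pool.MIC6.ActF S y) {a₀ E₀ M₀ : ℝ}
    (hex : Bas S (fun J F A => ∃ (a : PtT F → Fin m → ℝ) (c : PtT F → ℝ),
      ClA F A {y, u, v} t ⌊a₀ * J⌋₊ ⌊E₀ * J⌋₊ ⌊M₀ * J⌋₊ a c)) :
    ∃ S₁ : PCl m, S₁.Ne ∧
      (∀ (τ : ℝ) (J : ℕ) (F : Fam m J) (A : F.Ω → Prop), S₁.St τ J F A → S.St τ J F A) ∧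
      ∃ (κ : ∀ (J : ℕ) (F : Fam m J), PtT F → Fin m → ℝ)
        (κc : ∀ (J : ℕ) (F : Fam m J), PtT F → ℝ) (N : ℚ → ℝ),
      (∀ (τ : ℝ) (J : ℕ) (F : Fam m J) (A : F.Ω → Prop), S₁.St τ J F A →
        ClA F A {y, u, v} t ⌊a₀ * J⌋₊ ⌊E₀ * J⌋₊ ⌊M₀ * J⌋₊ (κ J F) (κc J F)) ∧
      MNum S₁ y (fun J F ω => F.d ω t - κ J F (ptr F J ω) u * F.d ω u -
        κ J F (ptr F J ω) v * F.d ω v) a₀ 1 N ∧
      (∀ w : ℚ, ∃ η, RNum S₁ (fun J F => ptr F J) (vg (w : ℝ)) η) ∧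
      (∀ᵐ x : ℝ, (∃ w : ℚ, a₀ < w ∧ (w : ℝ) < x ∧ 0 < N w) → x < 1 → ∀ P : ℚ, 0 < P →
        ∃ θ : ℚ → ℚ → ℝ, IprI S₁ (fun J F => ptr F J) (fun J F => F.W) 0 (dQ y P)
          (mQ y (fun J F ω => F.d ω t - κ J F (ptr F J ω) u * F.d ω u -
            κ J F (ptr F J ω) v * F.d ω v) N) θ x) ∧
      (∀ᵐ x : ℝ, ∀ e : ℝ, 0 < e → ∃ P : ℚ, 0 < P ∧ ∃ r₀ : ℝ, 0 < r₀ ∧ ∀ r : ℝ, 0 < r →
        r < r₀ → ∀ w l : ℚ, x - r ≤ w → w ≤ l → (l : ℝ) ≤ x + r → ∀ (y' : Fin m) (S'' : PCl m),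
          (∀ (τ : ℝ) (J : ℕ) (F : Fam m J) (A : F.Ω → Prop), S''.St τ J F A → S₁.St τ J F A) →
          FrD S'' y' P w l (e * r)) := by
  classical
  have hle : ∀ {S S' : PCl m}, (∀ (τ : ℝ) (J : ℕ) (F : Fam m J) (A : F.Ω → Prop),
      S'.St τ J F A → S.St τ J F A) → (∀ (τ : ℝ) (J : ℕ) (F : Fam m J) (A : F.Ω → Prop),
      S.St τ J F A → 0 < Pe F.p A) → ∀ (τ : ℝ) (J : ℕ) (F : Fam m J) (A : F.Ω → Prop),
      S'.St τ J F A → 0 < Pe F.p A := fun h1 h2 τ J F A h => h2 τ J F A (h1 τ J F A h)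
  -- the label
  obtain ⟨S₁, n1, s1, d, hd⟩ := Pool.ONE62.fix_data (κ₀ := 1) hS
    (D := fun _ F => (PtT F → Fin m → ℝ) × (PtT F → ℝ)) one_pos
    (G := fun J F A d => ClA F A {y, u, v} t ⌊a₀ * J⌋₊ ⌊E₀ * J⌋₊ ⌊M₀ * J⌋₊ d.1 d.2)
    (fun J F A B d h hB => h.sub hB) (Bas.mono 0 hex (by
      rintro J - F A ⟨a, c, h⟩
      exact ⟨A, fun _ h => h, by rw [one_mul], (a, c), h⟩))
  -- the records
  obtain ⟨S₂, n2, s2, η, hη⟩ := rnum_ptr n1 (hle s1 hpos) (hcnt.sub s1)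
  -- the thresholds
  obtain ⟨g, hg⟩ : ∃ g : ∀ (J : ℕ) (F : Fam m J), F.Ω → ℝ, g = fun J F ω =>
    F.d ω t - (d J F).1 (ptr F J ω) u * F.d ω u - (d J F).1 (ptr F J ω) v * F.d ω v := ⟨_, rfl⟩
  obtain ⟨S₃, n3, s3, N, hN⟩ := Pool.ONE62.mnum_ext n2 a₀ (B := 1) le_rfl y g
  have s31 : ∀ (τ : ℝ) (J : ℕ) (F : Fam m J) (A : F.Ω → Prop), S₃.St τ J F A → S.St τ J F A :=
    fun τ J F A h => s1 τ J F A (s2 τ J F A (s3 τ J F A h))
  -- the own velocity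
  obtain ⟨S₄, n4, s4, h4⟩ := Pool.ONE62.mod_ipr (g := g) n3 (hle s31 hpos) (C₀ := C₀)
    (fun τ J F A h0 h => htm τ J F A h0 (s31 τ J F A h)) (Pool.OWN72.ActF.subc s31 hact) (A := a₀)
    (B := 1) le_rfl (fun w _ _ => ⟨η w, (hη w).sub s3⟩) hN
  have s41 : ∀ (τ : ℝ) (J : ℕ) (F : Fam m J) (A : F.Ω → Prop), S₄.St τ J F A → S.St τ J F A :=
    fun τ J F A h => s31 τ J F A (s4 τ J F A h)
  -- the free digits
  obtain ⟨S₅, n5, s5, h5⟩ := Pool.ONE91.fre_ae n4 (hle s41 hpos) 0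
  refine ⟨S₅, n5, fun τ J F A h => s41 τ J F A (s5 τ J F A h), fun J F => (d J F).1,
    fun J F => (d J F).2, N, fun τ J F A h => hd τ J F A (s2 τ J F A (s3 τ J F A (s4 τ J F A
      (s5 τ J F A h)))), ?_, fun w => ⟨η w, ((hη w).sub s3).sub fun τ J F A h =>
      s4 τ J F A (s5 τ J F A h)⟩, ?_, ?_⟩
  · have h6 := hN.subc fun τ J F A h => s4 τ J F A (s5 τ J F A h)
    rw [hg] at h6
    exact h6
  · filter_upwards [h4] with x hx hw hx1 P hP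
    obtain ⟨θ, hθ⟩ := hx hw hx1 P hP
    refine ⟨θ, ?_⟩
    rw [hg] at hθ
    exact hθ.sub s5
  · filter_upwards [h5] with x hx e he
    obtain ⟨P, hP, r₀, hr₀, H⟩ := hx e he
    refine ⟨P, hP, r₀, hr₀, fun r hr hrr w l a b c y' S'' hs => ?_⟩
    have h6 := H r hr hrr w l a b c y' S'' hs
    rwa [add_zero, add_zero] at h6

end Pool.ONE28
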