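import Pool.Agent.H72.ONE1.Tgs
import Pool.Agent.H72.ONE1.Mdf
import Pool.Agent.H5.K2.Exh

/-!
# A gain against the threshold of the target

`gain_tgs`: a gain at a rate is impossible, with the threshold of the target. `gain_void`: a gain of
the own velocity of a modified coordinate is impossible.
-/

set_option autoImplicit false

namespace Pool.ONE28

open Finset Real
open Pool.Agent.H49.Ent Pool.Agent.H32.Dense Pool.STK Pool.KA Pool.KSAT Pool.K2S Pool.PB Pool.GEN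
open Pool.S6C Pool.LA91 Pool.RCD Pool.OWN72 Pool.MM97 Pool.GN97 Pool.ONE72
open Pool.JVE (DpI)
open Pool.MIC6 (res_of)
open Pool.LBT (ThrOf)
open Pool.ONE (tgs)

variable {m : ℕ}

/-- **A gain at a rate is impossible**, with the threshold of the target. -/
theorem gain_tgs {S : PCl m} (hS : S.Ne) {C₀ : ℝ} (htm : TmC S C₀) {y : Fin m}
    {I : Finset (Fin m)} (hy : y ∈ I) {v : Fin m} (hv : v ∉ I) {Pt : ℝ → ℝ → ℝ}
    (hT : ThrOf (tgs v) S (fun _ => Pt)) {W W' a' P M R x b c₁ e η η' κ₀ : ℝ}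
    (hW0 : 0 < W) (hWW : W ≤ W') (hW1' : W' ≤ 1) (hWa : W < a') (ha' : a' ≤ 1)
    (hη : RNum S (fun J F => ptr F J) (vg W) η) (hη' : RNum S (fun J F => ptr F J) (vg W') η')
    (hx : 0 ≤ x) (hPR : P ≤ R) (hR : 0 ≤ R) (hb : 0 < b) (hbc : 100 * b ≤ c₁)
    (hfr : FrD S y P W W' b) (hact : Bas S (fun J F A => c₁ * J ≤
      CH (Pool.Agent.H49.Ent.cond F.p A True) (fun ω => F.D ⌊x * J⌋₊ ω y) (ptr F J)))
    (hM : Pt a' a' < W + M - 2 * x) (he : 0 ≤ e) (h1 : W + M + e < 1) (hκ₀ : 0 < κ₀)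
    (hgain : Bas S (fun J F A => ∃ (B : F.Ω → Prop) (a : PtT F → Fin m → ℝ) (c p q : PtT F → ℝ)
        (V : Type) (z : F.Ω → V), Sub B A ∧ κ₀ * Pe F.p A ≤ Pe F.p B ∧
        GainR F y I v ⌊W * J⌋₊ ⌊W' * J⌋₊ ⌊e * J⌋₊ ⌊M * J⌋₊ ⌊P * J⌋₊ ⌊R * J⌋₊ (b * J) B
          a c p q z)) : False := by
  classical
  have hlow := hT.low () a' a' (hW0.le.trans hWa.le) le_rfl ha'
  have h2x : 2 * x < M := by linarith
  have hW1 : W ≤ 1 := hWW.trans hW1'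
  obtain ⟨s, hs⟩ : ∃ s, s = (W + M - 2 * x - Pt a' a') / 2 := ⟨_, rfl⟩
  have hs0 : 0 < s := by rw [hs]; linarith
  obtain ⟨M₂, hM₂⟩ : ∃ M₂, M₂ = M - 2 * x - s := ⟨_, rfl⟩
  have hM₂1 : Pt a' a' < W + M₂ := by
    rw [hM₂]
    linarith
  have hM₂0 : 0 < M₂ := by linarith
  obtain ⟨τl, hτl, Jl, hl⟩ := nlb_tgs hT hv hW0 hWa ha' hM₂1 he (by
    rw [hM₂]
    linarith) (show 0 < κ₀ / 2 by linarith)
  obtain ⟨τh, hτh, Jh, hgn⟩ := hgain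
  obtain ⟨τg, hτg, Jg, hgs⟩ := line_cls (I := I) (v := v) htm hW1 hWW hW1' hη hη' hx
    h2x hPR hR hb hbc hfr hact
  obtain ⟨J₁, hJ₁⟩ := exists_nat_ge (Real.log (1 / κ₀) / (τg / 2))
  obtain ⟨J₂, hJ₂⟩ := exists_nat_ge (2 / s)
  obtain ⟨J, hJ, F, A, hA⟩ := hS (min τl (min (τg / 2) τh))
    (lt_min hτl (lt_min (by linarith) hτh)) (Jl + Jg + Jh + J₁ + J₂)
  have a1 : S.St τl J F A := S.mono (min_le_left _ _) hA
  have a2 : S.St (τg / 2) J F A := S.mono ((min_le_right _ _).trans (min_le_left _ _)) hA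
  have a3 : S.St τh J F A := S.mono ((min_le_right _ _).trans (min_le_right _ _)) hA
  have hA0 := pos_of htm _ J F A a1
  have jr : ((Jl + Jg + Jh + J₁ + J₂ : ℕ) : ℝ) ≤ J := by exact_mod_cast hJ
  push_cast at jr
  have n1 : (0 : ℝ) ≤ J₁ := Nat.cast_nonneg _
  have n2 : (0 : ℝ) ≤ J₂ := Nat.cast_nonneg _
  have n3 : (0 : ℝ) ≤ Jl := Nat.cast_nonneg _
  have n4 : (0 : ℝ) ≤ Jg := Nat.cast_nonneg _
  have n5 : (0 : ℝ) ≤ Jh := Nat.cast_nonneg _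
  have hJ0 : (0 : ℝ) ≤ J := Nat.cast_nonneg J
  have q1 : Real.log (1 / κ₀) ≤ τg / 2 * J := by
    have h1 : Real.log (1 / κ₀) / (τg / 2) ≤ (J : ℝ) := by linarith
    rw [div_le_iff₀ (by linarith)] at h1
    linarith
  have q2 : 2 ≤ s * J := by
    have h1 : 2 / s ≤ (J : ℝ) := by linarith
    rw [div_le_iff₀ hs0] at h1
    linarith
  obtain ⟨B, a, c, p, q, V, z, b1, b2, hG⟩ := hgn J (by omega) F A a3
  have hBS : S.St τg J F B := by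
    have hS' := res_of (by linarith : (0 : ℝ) ≤ τg / 2) a2 b1
      (by positivity : (0 : ℝ) < 1 / κ₀) q1 (by
        rw [one_div, ← div_eq_inv_mul, le_div_iff₀ hκ₀]
        linarith)
    have e1 : 2 * (τg / 2) = τg := by ring
    rwa [e1] at hS'
  obtain ⟨sel, hsel⟩ := hgs J (by omega) F B hBS _ a c p q V z hG
  have f1 : (⌊M₂ * (J : ℝ)⌋₊ : ℝ) ≤ M₂ * J := Nat.floor_le (mul_nonneg hM₂0.le hJ0)
  have f2 : (⌊x * (J : ℝ)⌋₊ : ℝ) ≤ x * J := Nat.floor_le (by positivity)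
  have f3 : M * (J : ℝ) - 1 < ⌊M * (J : ℝ)⌋₊ := Nat.sub_one_lt_floor _
  have f4 : ⌊M₂ * (J : ℝ)⌋₊ + 2 * ⌊x * (J : ℝ)⌋₊ ≤ ⌊M * J⌋₊ := by
    have h1 : ((⌊M₂ * (J : ℝ)⌋₊ + 2 * ⌊x * (J : ℝ)⌋₊ : ℕ) : ℝ) < ⌊M * J⌋₊ + 1 := by
      have e1 : M₂ * (J : ℝ) = M * J - 2 * (x * J) - s * J := by
        rw [hM₂]
        ring
      push_cast
      linarith
    have h2 : ⌊M₂ * (J : ℝ)⌋₊ + 2 * ⌊x * (J : ℝ)⌋₊ < ⌊M * J⌋₊ + 1 := by exact_mod_cast h1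
    omega
  have hca : ∀ k, ∃ f' : LnT F → ℝ, k ∈ I → ∀ ω, B ω →
      a (ptr F J ω) k = f' (slam F ⌊W * J⌋₊ ω) := by
    intro k
    by_cases hk : k ∈ I
    · obtain ⟨f', hf⟩ := hG.ca k hk
      exact ⟨f', fun _ => hf⟩
    · exact ⟨fun _ => 0, fun h => absurd h hk⟩
  choose af haf using hca
  obtain ⟨M', hM'⟩ : ∃ M', M' = ⌊M * (J : ℝ)⌋₊ - 2 * ⌊x * (J : ℝ)⌋₊ := ⟨_, rfl⟩
  rw [← hM'] at hsel
  have hMM : M' ≤ ⌊M * (J : ℝ)⌋₊ := by omega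
  have hM2' : ⌊M₂ * (J : ℝ)⌋₊ ≤ M' := by omega
  have hp2 : (1 : ℝ) / 2 ^ M' ≤ 1 / 2 ^ ⌊M₂ * (J : ℝ)⌋₊ :=
    one_div_le_one_div_of_le (by positivity) (pow_le_pow_right₀ (by norm_num) hM2')
  obtain ⟨B', hB'⟩ : ∃ B' : F.Ω → Prop, B' = fun ω => B ω ∧
      |q (ptr F J ω) - q (ptr F J (sel (slam F ⌊W * J⌋₊ ω)))| ≤ 1 / 2 ^ M' := ⟨_, rfl⟩
  rw [← hB'] at hsel
  have hB'B : Sub B' B := fun ω hω => by
    rw [hB'] at hω
    exact hω.1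
  have hdp : DpI F B' I v ⌊e * J⌋₊ ⌊M₂ * J⌋₊ (fun s k => a s k + if k = y then q s else 0)
      (fun s => c s + p s) := by
    intro ω hω
    have hωB := hB'B ω hω
    refine ⟨hG.bda ω hωB, hG.bdc ω hωB, ?_⟩
    have h1 := hG.rep ω hωB
    unfold ow at h1
    have e1 : ∑ k ∈ I, (a (ptr F J ω) k + if k = y then q (ptr F J ω) else 0) * F.d ω k =
        ∑ k ∈ I, a (ptr F J ω) k * F.d ω k + q (ptr F J ω) * F.d ω y := by
      simp only [add_mul, Finset.sum_add_distrib, ite_mul, zero_mul]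
      congr 1
      rw [Finset.sum_ite_eq' I y, if_pos hy]
    show |F.d ω v - (c (ptr F J ω) + p (ptr F J ω)) -
      ∑ k ∈ I, (a (ptr F J ω) k + if k = y then q (ptr F J ω) else 0) * F.d ω k| ≤
        1 / 2 ^ ⌊M₂ * J⌋₊
    rw [e1]
    have e2 : F.d ω v - (c (ptr F J ω) + p (ptr F J ω)) - (∑ k ∈ I, a (ptr F J ω) k * F.d ω k +
        q (ptr F J ω) * F.d ω y) = F.d ω v - c (ptr F J ω) -
        ∑ k ∈ I, a (ptr F J ω) k * F.d ω k - p (ptr F J ω) - q (ptr F J ω) * F.d ω y := by ring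
    rw [e2]
    refine (h1.trans (one_div_le_one_div_of_le (by positivity)
      (pow_le_pow_right₀ (by norm_num) hMM))).trans hp2
  refine hl J (by omega) F A a1 B' _ _
    (fun s k => af k s + if k = y then q (ptr F J (sel s)) else 0)
    (fun ω hω => b1 ω (hB'B ω hω)) (by linarith) hdp (fun ω hω k hk => ?_)
  show |(af k (slam F ⌊W * J⌋₊ ω) + if k = y then
    q (ptr F J (sel (slam F ⌊W * J⌋₊ ω))) else 0) -
    (a (ptr F J ω) k + if k = y then q (ptr F J ω) else 0)| ≤ 1 / 2 ^ ⌊M₂ * J⌋₊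
  rw [← haf k hk ω (hB'B ω hω)]
  by_cases h0 : k = y
  · rw [if_pos h0, if_pos h0]
    have e3 : a (ptr F J ω) k + q (ptr F J (sel (slam F ⌊W * J⌋₊ ω))) -
        (a (ptr F J ω) k + q (ptr F J ω)) =
        -(q (ptr F J ω) - q (ptr F J (sel (slam F ⌊W * J⌋₊ ω)))) := by ring
    rw [e3, abs_neg]
    rw [hB'] at hω
    exact hω.2.trans hp2
  · rw [if_neg h0, if_neg h0, sub_self, abs_zero]
    positivity

/-- Statements about all members hold for all events of the members of probability at least `κ`. -/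
theorem bas_sh {S : PCl m} {Φ : Stat m} (h : Bas S Φ) {κ : ℝ} (hκ : 0 < κ) :
    Bas S (fun J F A => ∀ B : F.Ω → Prop, Sub B A → κ * Pe F.p A ≤ Pe F.p B → Φ J F B) := by
  obtain ⟨τ, hτ, J₁, h⟩ := h
  obtain ⟨J₂, hJ₂⟩ := exists_nat_ge (-Real.log κ / (τ / 2))
  refine ⟨τ / 2, by positivity, max J₁ J₂, fun J hJ F A hA B hB hP => ?_⟩
  refine h J ((le_max_left _ _).trans hJ) F B ?_
  have h1 := S.res (τ := τ / 2) (τ' := τ / 2) (by positivity) hA hB (by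
    refine le_trans (mul_le_mul_of_nonneg_right ?_ (Pe_nonneg F.isLaw A)) hP
    have hJ' : (J₂ : ℝ) ≤ J := by exact_mod_cast (le_max_right _ _).trans hJ
    have h2 : -Real.log κ / (τ / 2) ≤ J := hJ₂.trans hJ'
    rw [div_le_iff₀ (by positivity)] at h2
    have h3 : -(τ / 2 * (J : ℝ)) ≤ Real.log κ := by linarith
    exact (Real.exp_le_exp.2 h3).trans (Real.exp_log hκ).le)
  rwa [add_halves] at h1

/-- Larger losses. -/
theorem FrD.le {S : PCl m} {k : Fin m} {N w l κ κ' : ℝ} (h : FrD S k N w l κ) (hκ : κ ≤ κ') :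
    FrD S k N w l κ' := by
  obtain ⟨k₂, hk, h1⟩ := h
  refine ⟨k₂, hk, Bas.mono 0 h1 fun J _ F A hA V z V' z' m1 m2 => ?_⟩
  exact (hA V z V' z' m1 m2).trans (add_le_add le_rfl
    (mul_le_mul_of_nonneg_right hκ (Nat.cast_nonneg J)))

/-- The entropy on a part of an event of relative probability at least one half. -/
theorem few_half {Ω T U : Type} [Fintype Ω] {p : Ω → ℝ} (hp : IsLaw p) {A B : Ω → Prop}
    (hA : 0 < Pe p A) (h : Sub B A) (hh : Pe p A ≤ 2 * Pe p B) (X : Ω → T) (Y : Ω → U) {r : ℝ}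
    (hr : CH (cond p A True) X Y ≤ r) : CH (cond p B True) X Y ≤ 2 * r := by
  have hB : 0 < Pe p B := by linarith
  have h1 := CH_super hp hA h X Y
  have h2 : 0 ≤ Pe p (fun ω => A ω ∧ ¬ B ω) * CH (cond p (fun ω => A ω ∧ ¬ B ω) True) X Y := by
    refine mul_nonneg (Pe_nonneg hp _) (CH_nonneg (fun ω => ?_) _ _)
    exact cond_nonneg hp.nonneg _ _ ω
  have h0 : 0 ≤ CH (cond p A True) X Y := CH_nonneg (isLaw_cond hp hA).nonneg _ _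
  have h3 : Pe p B * CH (cond p B True) X Y ≤ Pe p B * (2 * r) := by
    have h4 : Pe p A * CH (cond p A True) X Y ≤ (2 * Pe p B) * r :=
      mul_le_mul hh hr h0 (by linarith)
    linarith
  exact le_of_mul_le_mul_left h3 hB

/-- **A gain of the own velocity of a modified coordinate is impossible.** -/
theorem gain_void {S : PCl m} (hS : S.Ne) {C₀ : ℝ} (htm : TmC S C₀) {y u v t : Fin m}
    (hyu : y ≠ u) (hyv : y ≠ v) (hyt : y ≠ t) (huv : u ≠ v) (hut : u ≠ t) (hvt : v ≠ t)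
    (hactF : Pool.MIC6.ActF S y) {Pt : ℝ → ℝ → ℝ} (hT : ThrOf (tgs t) S (fun _ => Pt))
    {κ : ∀ (J : ℕ) (F : Fam m J), PtT F → Fin m → ℝ} {A₀ E : ℝ}
    (hκ : Bas S (fun J F A => ∀ k ∈ ({u, v} : Finset (Fin m)),
      Cl1 F A ⌊A₀ * J⌋₊ (fun s => κ J F s k) ∧
      ∀ ω, A ω → |κ J F (ptr F J ω) k| ≤ 2 ^ ⌊E * J⌋₊))
    {A B : ℝ} {N : ℚ → ℝ} (hN : MNum S y (fun J F ω => F.d ω t - κ J F (ptr F J ω) u * F.d ω u -
      κ J F (ptr F J ω) v * F.d ω v) A B N) {w' W' : ℚ} (hw0 : (0 : ℝ) < w') (hA₀ : A₀ ≤ w')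
    (hAw : A < w') (hwW : w' < W') (hWB : (W' : ℝ) < B) (hW1 : (W' : ℝ) ≤ 1)
    {M P x b c₁ e E' a' η η' κ₀ : ℝ} (hNM : N w' ≤ M) (hMN : M < N W') (he : 0 ≤ e)
    (heP : M - N w' + e < P) (hwa : (w' : ℝ) < a') (ha' : a' ≤ 1)
    (hη : RNum S (fun J F => ptr F J) (vg (w' : ℝ)) η)
    (hη' : RNum S (fun J F => ptr F J) (vg (W' : ℝ)) η') (hx : 0 ≤ x) (hb : 0 < b)
    (hbc : 200 * b ≤ c₁) (hfr : FrD S y P w' W' b) (hact : Bas S (fun J F A => c₁ * J ≤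
      CH (Pool.Agent.H49.Ent.cond F.p A True) (fun ω => F.D ⌊x * J⌋₊ ω y) (ptr F J)))
    (hMx : Pt a' a' < w' + M - 2 * x) (hE0 : 0 ≤ E) (hEE : E < E') (h1 : (w' : ℝ) + M + E' < 1)
    (hκ₀ : 0 < κ₀)
    (few : Bas S (fun J F A => ∃ B : F.Ω → Prop, Sub B A ∧ κ₀ * Pe F.p A ≤ Pe F.p B ∧
      ∃ γ γc : PtT F → ℝ, MLb F B y (fun ω => F.d ω t - κ J F (ptr F J ω) u * F.d ω u -
          κ J F (ptr F J ω) v * F.d ω v) ⌊(w' : ℝ) * J⌋₊ ⌊(N w' - e) * J⌋₊ γ γc ∧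
      ∃ (V : Type) (z : F.Ω → V), Cl2 (ptr F J) (slam F ⌊(w' : ℝ) * J⌋₊) B z ∧
        CH (Pool.Agent.H49.Ent.cond F.p B True) (fun ω => ⌊(2 : ℝ) ^ ⌊M * J⌋₊ *
          ov F y (fun ω => F.d ω t - κ J F (ptr F J ω) u * F.d ω u -
            κ J F (ptr F J ω) v * F.d ω v) γ γc ω⌋)
          (fun ω => (F.D ⌊P * J⌋₊ ω y, (z ω, F.W ω))) ≤ b * J)) : False := by
  classical
  have hwWR : (w' : ℝ) < W' := by exact_mod_cast hwW
  have hN0 : 0 ≤ N w' := hN.n0 w' hAw (hwWR.trans hWB)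
  have hM0 : 0 ≤ M := hN0.trans hNM
  obtain ⟨e₁, he₁⟩ : ∃ e₁, e₁ = (N W' - M) / 2 := ⟨_, rfl⟩
  have hatt := hN.att W' (hAw.trans hwWR) hWB e₁ (by rw [he₁]; linarith) (by rw [he₁]; linarith)
  obtain ⟨s, hs⟩ : ∃ s, s = min ((P - (M - N w' + e)) / 4) ((E' - E) / 4) := ⟨_, rfl⟩
  have hs0 : 0 < s := by
    rw [hs]
    exact lt_min (by linarith) (by linarith)
  have hs1 : 4 * s ≤ P - (M - N w' + e) := by
    have : s ≤ (P - (M - N w' + e)) / 4 := by rw [hs]; exact min_le_left _ _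
    linarith
  have hs2 : 4 * s ≤ E' - E := by
    have : s ≤ (E' - E) / 4 := by rw [hs]; exact min_le_right _ _
    linarith
  have hcf := cf_zero htm hactF W' s (1 / 4) hs0 (by norm_num)
  obtain ⟨J₀, hJ₀⟩ := exists_nat_ge (1 / s)
  have hyI : y ∈ ({y, u, v} : Finset (Fin m)) := by simp
  have htI : t ∉ ({y, u, v} : Finset (Fin m)) := by
    simp only [Finset.mem_insert, Finset.mem_singleton, not_or]
    exact ⟨hyt.symm, hut.symm, hvt.symm⟩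
  refine gain_tgs hS htm hyI htI hT (W := w') (W' := W') (a' := a') (P := P) (M := M) (R := P)
    (x := x) (b := 2 * b) (c₁ := c₁) (e := E') hw0 hwWR.le hW1 hwa ha' hη hη' hx le_rfl
    (by linarith) (by linarith) (by linarith) (FrD.le hfr (by linarith)) hact hMx (by linarith) h1
    (show 0 < κ₀ / 2 by linarith) ?_
  have hpos : Bas S (fun _ F A => 0 < Pe F.p A) :=
    ⟨1, one_pos, 0, fun J _ F A h => pos_of htm _ J F A h⟩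
  refine Bas.mono J₀ (((few.and hatt).and ((bas_sh hcf hκ₀).and
    (bas_sh hcf (show 0 < κ₀ * (3 / 4) by linarith)))).and (hκ.and hpos)) ?_
  rintro J hJ F A' ⟨⟨⟨⟨B₀, b1, b2, γ, γc, hlb, V, z, hz, hfew⟩, γ₂, γ₂c, hlb₂⟩, hc1, hc2⟩, hkap,
    hA0⟩
  have hJr : (J₀ : ℝ) ≤ J := by exact_mod_cast hJ
  have hJ0 : (0 : ℝ) ≤ J := Nat.cast_nonneg J
  have hsJ : 1 ≤ s * J := by
    have h1 : 1 / s ≤ (J : ℝ) := hJ₀.trans hJr
    rw [div_le_iff₀ hs0] at h1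
    linarith
  -- the numbers
  have f1 : (⌊(0 + s) * (J : ℝ)⌋₊ : ℝ) ≤ s * J := by
    rw [zero_add]
    exact Nat.floor_le (by positivity)
  have f2 : (⌊M * (J : ℝ)⌋₊ : ℝ) ≤ M * J := Nat.floor_le (by positivity)
  have f3 : P * (J : ℝ) - 1 < ⌊P * (J : ℝ)⌋₊ := Nat.sub_one_lt_floor _
  have f4 : (N w' - e) * (J : ℝ) - 1 < ⌊(N w' - e) * (J : ℝ)⌋₊ := Nat.sub_one_lt_floor _
  have f5 : (⌊E * (J : ℝ)⌋₊ : ℝ) ≤ E * J := Nat.floor_le (by positivity)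
  have f6 : E' * (J : ℝ) - 1 < ⌊E' * (J : ℝ)⌋₊ := Nat.sub_one_lt_floor _
  have g1 : ⌊(0 + s) * (J : ℝ)⌋₊ + ⌊M * (J : ℝ)⌋₊ + 1 ≤
      ⌊P * (J : ℝ)⌋₊ + ⌊(N w' - e) * (J : ℝ)⌋₊ := by
    have h1 := mul_le_mul_of_nonneg_right hs1 hJ0
    have h2 : ((⌊(0 + s) * (J : ℝ)⌋₊ + ⌊M * (J : ℝ)⌋₊ + 1 : ℕ) : ℝ) ≤
        ((⌊P * (J : ℝ)⌋₊ + ⌊(N w' - e) * (J : ℝ)⌋₊ : ℕ) : ℝ) := by
      push_cast
      linarith
    exact_mod_cast h2
  have g2 : ⌊(0 + s) * (J : ℝ)⌋₊ + ⌊E * (J : ℝ)⌋₊ + 2 ≤ ⌊E' * (J : ℝ)⌋₊ := by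
    have h1 := mul_le_mul_of_nonneg_right hs2 hJ0
    have h2 : ((⌊(0 + s) * (J : ℝ)⌋₊ + ⌊E * (J : ℝ)⌋₊ + 2 : ℕ) : ℝ) ≤
        ((⌊E' * (J : ℝ)⌋₊ : ℕ) : ℝ) := by
      push_cast
      linarith
    exact_mod_cast h2
  have g3 : ⌊M * (J : ℝ)⌋₊ ≤ ⌊(N W' - e₁) * (J : ℝ)⌋₊ :=
    Nat.floor_le_floor (mul_le_mul_of_nonneg_right (by rw [he₁]; linarith) hJ0)
  have g4 : ⌊(N w' - e) * (J : ℝ)⌋₊ ≤ ⌊M * (J : ℝ)⌋₊ :=
    Nat.floor_le_floor (mul_le_mul_of_nonneg_right (by linarith) hJ0)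
  have g5 : ⌊(w' : ℝ) * J⌋₊ ≤ ⌊(W' : ℝ) * J⌋₊ :=
    Nat.floor_le_floor (mul_le_mul_of_nonneg_right hwWR.le hJ0)
  have g6 : ⌊(W' : ℝ) * J⌋₊ ≤ J :=
    Nat.floor_le_of_le (mul_le_of_le_one_left hJ0 hW1)
  have g7 : ⌊A₀ * J⌋₊ ≤ ⌊(w' : ℝ) * J⌋₊ :=
    Nat.floor_le_floor (mul_le_mul_of_nonneg_right hA₀ hJ0)
  obtain ⟨gf, hgf⟩ : ∃ gf : F.Ω → ℝ, gf = fun ω => F.d ω t - κ J F (ptr F J ω) u * F.d ω u -
    κ J F (ptr F J ω) v * F.d ω v := ⟨_, rfl⟩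
  rw [← hgf] at hlb hfew
  rw [← hgf] at hlb₂
  -- the first event: the difference of the labels
  have hB₀0 : 0 < Pe F.p B₀ := (mul_pos hκ₀ hA0).trans_le b2
  have hrel1 : ∀ ω, B₀ ω → |(γ₂c (ptr F J ω) - γc (ptr F J ω)) + ∑ k ∈ ({y} : Finset (Fin m)),
      (γ₂ (ptr F J ω) - γ (ptr F J ω)) * F.d ω k| ≤ 2 * (1 / 2 ^ ⌊(N w' - e) * (J : ℝ)⌋₊) := by
    intro ω hω
    have r1 := hlb.rep ω hω
    have r2 := hlb₂.rep ω (b1 ω hω)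
    have r3 : (1 : ℝ) / 2 ^ ⌊(N W' - e₁) * (J : ℝ)⌋₊ ≤ 1 / 2 ^ ⌊(N w' - e) * (J : ℝ)⌋₊ :=
      one_div_le_one_div_of_le (by positivity) (pow_le_pow_right₀ (by norm_num) (g4.trans g3))
    unfold ov at r1 r2
    rw [Finset.sum_singleton]
    have e1 : (γ₂c (ptr F J ω) - γc (ptr F J ω)) + (γ₂ (ptr F J ω) - γ (ptr F J ω)) * F.d ω y =
        (gf ω - γc (ptr F J ω) - γ (ptr F J ω) * F.d ω y) -
        (gf ω - γ₂c (ptr F J ω) - γ₂ (ptr F J ω) * F.d ω y) := by ring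
    rw [e1]
    refine (abs_sub _ _).trans ?_
    linarith
  obtain ⟨B₁, c1, c2, c3⟩ := hc1 B₀ b1 b2
    (fun p _ => γ₂ p - γ p) (fun p => γ₂c p - γc p) (2 * (1 / 2 ^ ⌊(N w' - e) * (J : ℝ)⌋₊))
    (by positivity) (fun k _ => ((hlb₂.sub b1).ca).map2 (fun x y => x - y) ((hlb.win g5 g6).ca))
    (((hlb₂.sub b1).cc).map2 (fun x y => x - y) ((hlb.win g5 g6).cc)) hrel1
  -- the second event: the sizes
  have hrel2 : ∀ ω, B₁ ω → |γ₂c (ptr F J ω) + ∑ k ∈ ({y} : Finset (Fin m)),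
      γ₂ (ptr F J ω) * F.d ω k| ≤ 4 * 2 ^ ⌊E * (J : ℝ)⌋₊ := by
    intro ω hω
    have hωA := b1 ω (c1 ω hω)
    have r2 := hlb₂.rep ω hωA
    have r3 : (1 : ℝ) / 2 ^ ⌊(N W' - e₁) * (J : ℝ)⌋₊ ≤ 1 := by
      rw [div_le_one (by positivity)]
      exact one_le_pow₀ (by norm_num)
    unfold ov at r2
    rw [Finset.sum_singleton]
    have k1 := (hkap u (by simp)).2 ω hωA
    have k2 := (hkap v (by simp)).2 ω hωA
    have d1 : |κ J F (ptr F J ω) u * F.d ω u| ≤ 2 ^ ⌊E * (J : ℝ)⌋₊ := by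
      rw [abs_mul]
      exact (mul_le_of_le_one_right (abs_nonneg _) (F.dir ω u)).trans k1
    have d2 : |κ J F (ptr F J ω) v * F.d ω v| ≤ 2 ^ ⌊E * (J : ℝ)⌋₊ := by
      rw [abs_mul]
      exact (mul_le_of_le_one_right (abs_nonneg _) (F.dir ω v)).trans k2
    have d3 := F.dir ω t
    have d4 : (1 : ℝ) ≤ 2 ^ ⌊E * (J : ℝ)⌋₊ := one_le_pow₀ (by norm_num)
    have d5 : |gf ω| ≤ 1 + 2 * 2 ^ ⌊E * (J : ℝ)⌋₊ := by
      rw [hgf]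
      refine (abs_sub _ _).trans ?_
      have := abs_sub (F.d ω t) (κ J F (ptr F J ω) u * F.d ω u)
      linarith
    have e1 : γ₂c (ptr F J ω) + γ₂ (ptr F J ω) * F.d ω y =
        gf ω - (gf ω - γ₂c (ptr F J ω) - γ₂ (ptr F J ω) * F.d ω y) := by ring
    rw [e1]
    refine (abs_sub _ _).trans ?_
    linarith
  have hB₁s : κ₀ * (3 / 4) * Pe F.p A' ≤ Pe F.p B₁ := by linarith
  obtain ⟨B₂, d1, d2, d3⟩ := hc2 B₁ (fun ω hω => b1 ω (c1 ω hω)) hB₁s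
    (fun p _ => γ₂ p) γ₂c (4 * 2 ^ ⌊E * (J : ℝ)⌋₊) (by positivity)
    (fun k _ => (hlb₂.ca).sub fun ω hω => b1 ω (c1 ω hω))
    ((hlb₂.cc).sub fun ω hω => b1 ω (c1 ω hω)) hrel2
  have s20 : Sub B₂ B₀ := fun ω hω => c1 ω (d1 ω hω)
  have s2A : Sub B₂ A' := fun ω hω => b1 ω (s20 ω hω)
  obtain ⟨a, ha⟩ : ∃ a : PtT F → Fin m → ℝ, a = fun s k => if k = y then γ s else κ J F s k :=
    ⟨_, rfl⟩
  have how : ∀ ω, ow F {y, u, v} t a γc ω = ov F y gf γ γc ω := by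
    intro ω
    unfold ow ov
    rw [Finset.sum_insert (by simp [hyu, hyv]), Finset.sum_insert (by simp [huv]),
      Finset.sum_singleton, ha, hgf]
    simp only [if_true, if_neg hyu.symm, if_neg hyv.symm]
    ring
  have p1 : (0 : ℝ) < 2 ^ ⌊(N w' - e) * (J : ℝ)⌋₊ := by positivity
  have size : ∀ r : ℝ, |r| ≤ 2 * (1 / 2 ^ ⌊(N w' - e) * (J : ℝ)⌋₊) * 2 ^ ⌊(0 + s) * (J : ℝ)⌋₊ →
      |r| * 2 ^ ⌊M * (J : ℝ)⌋₊ ≤ 2 ^ ⌊P * (J : ℝ)⌋₊ := by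
    intro r hr
    have h2 := mul_le_mul_of_nonneg_right hr (show (0 : ℝ) ≤ 2 ^ ⌊M * (J : ℝ)⌋₊ by positivity)
    refine h2.trans ?_
    have h3 : (2 : ℝ) ^ (⌊(0 + s) * (J : ℝ)⌋₊ + ⌊M * (J : ℝ)⌋₊ + 1) ≤
        2 ^ (⌊P * (J : ℝ)⌋₊ + ⌊(N w' - e) * (J : ℝ)⌋₊) := pow_le_pow_right₀ (by norm_num) g1
    rw [pow_add, pow_add, pow_add, pow_one] at h3
    have h4 : (2 : ℝ) * (1 / 2 ^ ⌊(N w' - e) * (J : ℝ)⌋₊) * 2 ^ ⌊(0 + s) * (J : ℝ)⌋₊ *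
        2 ^ ⌊M * (J : ℝ)⌋₊ = (2 ^ ⌊(0 + s) * (J : ℝ)⌋₊ * 2 ^ ⌊M * (J : ℝ)⌋₊ * 2) /
        2 ^ ⌊(N w' - e) * (J : ℝ)⌋₊ := by
      ring
    rw [h4, div_le_iff₀ p1]
    exact h3
  have big : ∀ r : ℝ, |r| ≤ 4 * 2 ^ ⌊E * (J : ℝ)⌋₊ * 2 ^ ⌊(0 + s) * (J : ℝ)⌋₊ →
      |r| ≤ 2 ^ ⌊E' * (J : ℝ)⌋₊ := by
    intro r hr
    refine hr.trans ?_
    have h3 : (2 : ℝ) ^ (⌊(0 + s) * (J : ℝ)⌋₊ + ⌊E * (J : ℝ)⌋₊ + 2) ≤ 2 ^ ⌊E' * (J : ℝ)⌋₊ :=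
      pow_le_pow_right₀ (by norm_num) g2
    rw [pow_add, pow_add] at h3
    linarith
  have hEE' : (2 : ℝ) ^ ⌊E * (J : ℝ)⌋₊ ≤ 2 ^ ⌊E' * (J : ℝ)⌋₊ :=
    pow_le_pow_right₀ (by norm_num) (by omega)
  refine ⟨B₂, a, γc, fun p => γ₂c p - γc p, fun p => γ₂ p - γ p, V, z, s2A, ?_, ?_⟩
  · linarith
  refine ⟨fun k hk => ?_, (hlb.sub s20).cc, ((hlb₂.sub s2A).cc).map2 (fun x y => x - y)
    (((hlb.sub s20).win g5 g6).cc), ((hlb₂.sub s2A).ca).map2 (fun x y => x - y)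
    (((hlb.sub s20).win g5 g6).ca), fun ω hω => ?_, fun ω hω => ?_, fun ω hω => ?_,
    fun ω hω k hk => ?_, fun ω hω => ?_, ?_, ?_⟩
  · by_cases hky : k = y
    · have e1 : (fun s => a s k) = γ := by
        funext s
        rw [ha]
        exact if_pos hky
      rw [e1]
      exact (hlb.sub s20).ca
    · have e1 : (fun s => a s k) = fun s => κ J F s k := by
        funext s
        rw [ha]
        exact if_neg hky
      rw [e1]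
      have hk' : k ∈ ({u, v} : Finset (Fin m)) := by
        simp only [Finset.mem_insert, Finset.mem_singleton] at hk ⊢
        tauto
      exact ((hkap k hk').1.sub s2A).win g7 (g5.trans g6)
  · have r2 := hlb₂.rep ω (s2A ω hω)
    rw [how ω]
    unfold ov at r2 ⊢
    have e1 : gf ω - γc (ptr F J ω) - γ (ptr F J ω) * F.d ω y -
        (γ₂c (ptr F J ω) - γc (ptr F J ω)) - (γ₂ (ptr F J ω) - γ (ptr F J ω)) * F.d ω y =
        gf ω - γ₂c (ptr F J ω) - γ₂ (ptr F J ω) * F.d ω y := by ring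
    rw [e1]
    exact r2.trans (one_div_le_one_div_of_le (by positivity)
      (pow_le_pow_right₀ (by norm_num) g3))
  · exact size _ ((c3 ω (d1 ω hω)).1 y (by simp))
  · exact size _ (c3 ω (d1 ω hω)).2
  · by_cases hky : k = y
    · rw [if_pos hky, ha]
      beta_reduce
      rw [if_pos hky, add_sub_cancel]
      exact big _ ((d3 ω hω).1 y (by simp))
    · rw [if_neg hky, ha]
      beta_reduce
      rw [if_neg hky, add_zero]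
      have hk' : k ∈ ({u, v} : Finset (Fin m)) := by
        simp only [Finset.mem_insert, Finset.mem_singleton] at hk ⊢
        tauto
      exact ((hkap k hk').2 ω (s2A ω hω)).trans hEE'
  · have e1 : γc (ptr F J ω) + (γ₂c (ptr F J ω) - γc (ptr F J ω)) = γ₂c (ptr F J ω) := by ring
    rw [e1]
    exact big _ (d3 ω hω).2
  · obtain ⟨⟨φ, hφ⟩, ψ, hψ⟩ := hz
    exact ⟨⟨φ, fun ω hω => hφ ω (s20 ω hω)⟩, ψ, fun ω hω => hψ ω (s20 ω hω)⟩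
  · have h2 : Pe F.p B₀ ≤ 2 * Pe F.p B₂ := by linarith
    have h3 := few_half F.isLaw hB₀0 s20 h2 _ _ hfew
    have e1 : (fun ω => ⌊(2 : ℝ) ^ ⌊M * (J : ℝ)⌋₊ * ow F {y, u, v} t a γc ω⌋) =
        fun ω => ⌊(2 : ℝ) ^ ⌊M * (J : ℝ)⌋₊ * ov F y gf γ γc ω⌋ := by
      funext ω
      rw [how ω]
    rw [e1]
    linarith

end Pool.ONE28
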